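import Mathlib
import Pool.Agent.Lib.MP_46ea74_gt.ParNum

set_option autoImplicit false
open MeasureTheory Set
open scoped Pointwise
open Pool.Agent.Lib.MP_46ea74_gt.Par

namespace Pool.Agent.Results.MP_46ea74_gt.PlaneAllExponents

/-- For every `p` strictly between 0 and 1 there is a planar convex body `K` with the origin in its
interior such that the Brunn-Minkowski inequality for the `L_p` surface area fails for `K` and its
reflection `-K`. -/
theorem result (p : ℝ) (hp0 : 0 < p) (hp1 : p < 1) :
    ∃ K : Set (EuclideanSpace ℝ (Fin 2)), IsBody K ∧ IsBody (-K) ∧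
      0 ∈ interior K ∧ 0 ∈ interior (-K) ∧
      ∃ s t r : ℝ, HasLpSurfaceArea p K s ∧ HasLpSurfaceArea p (-K) t ∧
        HasLpSurfaceArea p (K + -K) r ∧
        r ^ (1 / (2 - p)) < s ^ (1 / (2 - p)) + t ^ (1 / (2 - p)) :=
  main p hp0 hp1

end Pool.Agent.Results.MP_46ea74_gt.PlaneAllExponents
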